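import Pool.Agent.Q176.EX.Graph

/-!
# The excessive `[m]`-index of trees and of bipartite graphs

Let `G` be an `[m]`-coverable bipartite graph with the sides `A` and `B`, and let `k` be the maximum
on the right-hand side. Add `|B| - m` new rows and `|A| - m` new columns to the bipartite adjacency
matrix. Hall's theorem gives a matrix `W` of natural numbers with row and column sums `k` that is
at least the adjacency matrix, whose `A × B` block is supported by the adjacency relation and whose
new rows vanish on the new columns. Hall's condition for a set `S ⊆ A` says
`k (|C| - m) ≥ e(C)` for the vertex cover `C = (A \ S) ∪ N(S)`, where `e(C)` is the number of edges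
with both ends in `C`. As `C` covers each `[m]`-matching, an `[m]`-matching has at most
`t = |C| - m` edges inside `C`, so these edges are a `t`-splitting set, or all their matchings have
at most `t` edges and then there are at most `k t` of them, or `t = 0` and there are none, or
`t ≥ m` and the inequality follows from `|E| ≤ k m`. The matrix `W` is a sum of `k` permutation
matrices, and each of them has exactly `m` entries in the `A × B` block; these are the matchings.
-/

set_option autoImplicit false

namespace Pool.Agent.Results.MP_0e8bc2_co.TreesAndBipartite

open Pool.Agent.Q176.EX

/-- For every `m ≥ 1` and every `[m]`-coverable tree `T` the excessive `[m]`-index of `T` is the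
maximum of `χ'(T)`, `⌈|E(T)| / m⌉` and the numbers `⌈s^t(T) / t⌉` for `1 ≤ t ≤ m - 1`. The same
formula is true for every `[m]`-coverable finite bipartite graph. -/
theorem result :
    (∀ (V : Type) [Finite V] (T : SimpleGraph V), T.IsTree → ∀ m : ℕ, 1 ≤ m → Coverable T m →
      exIdx T m = bound T m) ∧
    ∀ (V : Type) [Finite V] (G : SimpleGraph V), G.IsBipartite → ∀ m : ℕ, 1 ≤ m →
      Coverable G m → exIdx G m = bound G m :=
  ⟨fun _ _ _ hT _ hm hc => exIdx_eq hT.isBipartite hm hc, fun _ _ _ hG _ hm hc =>
    exIdx_eq hG hm hc⟩

end Pool.Agent.Results.MP_0e8bc2_co.TreesAndBipartite
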